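import Pool.Agent.helper17.SG.SpecB

/-!
# Project sg: module B13: good concatenation
-/

set_option autoImplicit false

open MeasureTheory Set Metric Filter Topology
open scoped ENNReal NNReal ComplexConjugate

namespace Pool.Agent.SG

/-- for every pair of points some `t` works. -/
theorem B13_pt (h1 : B01_stmt) {Γ : Type} [Group Γ] (A : DiscRep Γ) (hN : A.NonEl) (z w : ℂ)
    (hz : ‖z‖ ≤ 1) (hw : ‖w‖ ≤ 1) : ∃ t : Γ, conj z * A.act t w ≠ 1 := by
  obtain ⟨b1, -, -, b4, -, -, -, -, -, -⟩ := h1 Γ A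
  by_contra hcon
  push Not at hcon
  have e1 : conj z * w = 1 := by
    have := hcon 1
    rwa [b4 w hw] at this
  have hnz : ‖z‖ * ‖w‖ = 1 := by
    have := congrArg norm e1
    rwa [norm_mul, RCLike.norm_conj, norm_one] at this
  have hz1 : ‖z‖ = 1 := by
    have h0 := norm_nonneg z
    have h0' := norm_nonneg w
    nlinarith
  have hw1 : ‖w‖ = 1 := by
    rw [hz1, one_mul] at hnz
    exact hnz
  have hzz : z * conj z = 1 := by
    rw [Complex.mul_conj, Complex.normSq_eq_norm_sq, hz1]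
    norm_num
  have key : ∀ x : ℂ, conj z * x = 1 → x = z := by
    intro x hx
    calc x = (z * conj z) * x := by rw [hzz, one_mul]
      _ = z * (conj z * x) := by ring
      _ = z := by rw [hx, mul_one]
  have hwz : w = z := key w e1
  obtain ⟨γ, ζ, hζ, hγ⟩ := hN {w} (Finset.singleton_nonempty w) (by
    intro ζ hζ
    rw [Finset.mem_singleton] at hζ
    rw [hζ, hw1])
  rw [Finset.mem_singleton] at hζ
  apply hγ
  rw [Finset.mem_singleton, hζ, key _ (hcon γ), hwz]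

theorem B13 (h1 : B01_stmt) (_h3 : B03_stmt) : B13_stmt := by
  classical
  intro Γ _ A hN
  obtain ⟨b1, -, -, b4, -, -, -, -, b9, -⟩ := h1 Γ A
  have hK : IsCompact (closedBall (0 : ℂ) 1 ×ˢ closedBall (0 : ℂ) 1) :=
    (isCompact_closedBall 0 1).prod (isCompact_closedBall 0 1)
  have hcont : ∀ t : Γ, ContinuousOn (fun p : ℂ × ℂ => ‖1 - conj p.1 * A.act t p.2‖)
      (closedBall (0 : ℂ) 1 ×ˢ closedBall (0 : ℂ) 1) := by
    intro t
    have h2 : ContinuousOn (fun p : ℂ × ℂ => A.act t p.2)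
        (closedBall (0 : ℂ) 1 ×ˢ closedBall (0 : ℂ) 1) :=
      (b9 t).comp continuousOn_snd (fun p hp => hp.2)
    have h3 : ContinuousOn (fun p : ℂ × ℂ => conj p.1)
        (closedBall (0 : ℂ) 1 ×ˢ closedBall (0 : ℂ) 1) :=
      (Complex.continuous_conj.comp continuous_fst).continuousOn
    exact (continuousOn_const.sub (h3.mul h2)).norm
  have main : ∃ T₀ : Finset Γ, ∃ c : ℝ, 0 < c ∧
      ∀ p ∈ closedBall (0 : ℂ) 1 ×ˢ closedBall (0 : ℂ) 1,
        ∃ t ∈ T₀, c ≤ ‖1 - conj p.1 * A.act t p.2‖ := by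
    refine hK.induction_on (p := fun S : Set (ℂ × ℂ) => ∃ T₀ : Finset Γ, ∃ c : ℝ, 0 < c ∧
      ∀ p ∈ S, ∃ t ∈ T₀, c ≤ ‖1 - conj p.1 * A.act t p.2‖) ?_ ?_ ?_ ?_
    · exact ⟨∅, 1, one_pos, fun p hp => absurd hp (notMem_empty p)⟩
    · rintro S S' hSS ⟨T, c, hc, hT⟩
      exact ⟨T, c, hc, fun p hp => hT p (hSS hp)⟩
    · rintro S S' ⟨T, c, hc, hT⟩ ⟨T', c', hc', hT'⟩
      refine ⟨T ∪ T', min c c', lt_min hc hc', fun p hp => ?_⟩
      rcases hp with hp | hp
      · obtain ⟨t, ht, ht'⟩ := hT p hp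
        exact ⟨t, Finset.mem_union_left _ ht, (min_le_left _ _).trans ht'⟩
      · obtain ⟨t, ht, ht'⟩ := hT' p hp
        exact ⟨t, Finset.mem_union_right _ ht, (min_le_right _ _).trans ht'⟩
    · rintro ⟨z, w⟩ hp
      obtain ⟨t, ht⟩ := B13_pt h1 A hN z w (mem_closedBall_zero_iff.mp hp.1)
        (mem_closedBall_zero_iff.mp hp.2)
      have hpos : 0 < ‖1 - conj z * A.act t w‖ := norm_pos_iff.mpr (sub_ne_zero.mpr ht.symm)
      have h5 : ∀ᶠ p in 𝓝[closedBall (0 : ℂ) 1 ×ˢ closedBall (0 : ℂ) 1] (z, w),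
          ‖1 - conj z * A.act t w‖ / 2 < ‖1 - conj p.1 * A.act t p.2‖ :=
        (hcont t (z, w) hp).eventually (lt_mem_nhds (by
          show ‖1 - conj z * A.act t w‖ / 2 < ‖1 - conj z * A.act t w‖
          linarith))
      refine ⟨{p | ‖1 - conj z * A.act t w‖ / 2 < ‖1 - conj p.1 * A.act t p.2‖}, h5, {t},
        ‖1 - conj z * A.act t w‖ / 2, by linarith, fun p hp' => ⟨t, Finset.mem_singleton_self t, ?_⟩⟩
      exact le_of_lt hp'
  obtain ⟨T₀, c, hc, hT⟩ := main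
  exact ⟨T₀, c, hc, fun z w hz hw => hT (z, w)
    ⟨mem_closedBall_zero_iff.mpr hz, mem_closedBall_zero_iff.mpr hw⟩⟩

end Pool.Agent.SG
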