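import Pool.Agent.helper48.SG.SpecH

/-!
# Project sg: module H12: orbit points near a boundary point with inverse near another one
-/

set_option autoImplicit false

open MeasureTheory Set Metric Filter Topology
open scoped ENNReal NNReal ComplexConjugate

namespace Pool.Agent.SG

theorem H12 (_h1 : B01_stmt) (h3 : B03_stmt) (h10 : B10_stmt) (h11 : B11_stmt) (h13 : B13_stmt) :
    H12_stmt := by
  classical
  intro Γ _ A hcoc hN u s hu hs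
  obtain ⟨-, -, -, g4, -, g6, -, -, -, -, -, g12⟩ := h3 Γ A
  obtain ⟨T₀, c, hc, hT⟩ := h13 Γ A hN
  obtain ⟨C₁, hC1, hC⟩ := h11 Γ A hcoc
  have hC0 : 0 < C₁ := lt_of_lt_of_le one_pos hC1
  have hm : 0 < min s 1 := lt_min hs one_pos
  have hD : 0 < C₁ * (1 + 1 / c) := by positivity
  obtain ⟨t₁, ht0, ht1, ht⟩ : ∃ t₁ : ℝ, 0 < t₁ ∧ t₁ ≤ 1 ∧ C₁ * t₁ * (1 + 1 / c) ≤ min s 1 := by
    refine ⟨min 1 (min s 1 / (C₁ * (1 + 1 / c))), lt_min one_pos (div_pos hm hD),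
      min_le_left _ _, ?_⟩
    have h := min_le_right 1 (min s 1 / (C₁ * (1 + 1 / c)))
    rw [le_div_iff₀ hD] at h
    calc C₁ * min 1 (min s 1 / (C₁ * (1 + 1 / c))) * (1 + 1 / c)
        = min 1 (min s 1 / (C₁ * (1 + 1 / c))) * (C₁ * (1 + 1 / c)) := by ring
      _ ≤ min s 1 := h
  obtain ⟨y, -, hy2, hy3⟩ := hC u t₁ hu ht0 ht1
  obtain ⟨M, hM1, hM⟩ := h10 Γ A (T₀.image fun t => t⁻¹ * y⁻¹)
  have hM0 : 0 < M := lt_of_lt_of_le one_pos hM1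
  have hMC : 1 ≤ M * C₁ := by nlinarith
  refine ⟨2 * M * C₁, by nlinarith, ?_⟩
  intro ζ τ hζ hτ0 hτ1
  obtain ⟨w, hw1, hw2, hw3⟩ := hC ζ τ hζ hτ0 hτ1
  obtain ⟨t, htT, htc⟩ := hT (A.pt y⁻¹) (A.pt w⁻¹) (g4 _).le (g4 _).le
  obtain ⟨m1, m2, m3, -⟩ := hM w (t⁻¹ * y⁻¹) (Finset.mem_image_of_mem (fun t => t⁻¹ * y⁻¹) htT)
  have hMτ : 0 < M * C₁ * τ := by positivity
  refine ⟨w * (t⁻¹ * y⁻¹), ?_, ?_, ?_, ?_⟩
  · rw [div_le_iff₀ (by positivity)]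
    rw [div_le_iff₀ hC0] at hw1
    have h5 : A.kk w * C₁ ≤ M * A.kk (w * (t⁻¹ * y⁻¹)) * C₁ :=
      mul_le_mul_of_nonneg_right m2 hC0.le
    have h6 : 0 < A.kk (w * (t⁻¹ * y⁻¹)) := by
      by_contra hneg
      push Not at hneg
      have h7 : M * A.kk (w * (t⁻¹ * y⁻¹)) * C₁ ≤ 0 := by
        have := mul_nonpos_of_nonneg_of_nonpos (mul_pos hM0 hC0).le hneg
        nlinarith
      linarith
    have h8 : 0 < M * A.kk (w * (t⁻¹ * y⁻¹)) * C₁ := by positivity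
    nlinarith
  · have h5 : M * A.kk w ≤ M * (C₁ * τ) := mul_le_mul_of_nonneg_left hw2 hM0.le
    nlinarith
  · have h5 : M * A.kk w ≤ M * (C₁ * τ) := mul_le_mul_of_nonneg_left hw2 hM0.le
    have h6 : C₁ * τ ≤ M * (C₁ * τ) := by
      have : 0 < C₁ * τ := by positivity
      nlinarith
    have h7 : ζ - A.pt (w * (t⁻¹ * y⁻¹)) =
        (ζ - A.pt w) - (A.pt (w * (t⁻¹ * y⁻¹)) - A.pt w) := by ring
    calc ‖ζ - A.pt (w * (t⁻¹ * y⁻¹))‖ ≤ ‖ζ - A.pt w‖ + ‖A.pt (w * (t⁻¹ * y⁻¹)) - A.pt w‖ := by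
          rw [h7]
          exact norm_sub_le _ _
      _ ≤ C₁ * τ + M * A.kk w := add_le_add hw3 m3
      _ ≤ 2 * M * C₁ * τ := by nlinarith
  · have hinv : (w * (t⁻¹ * y⁻¹))⁻¹ = y * (t * w⁻¹) := by group
    rw [hinv]
    have h5 := g12 y (t * w⁻¹)
    rw [g6 t w⁻¹] at h5
    have h6 : ‖A.act t (A.pt w⁻¹)‖ ≤ 1 := by
      rw [← g6 t w⁻¹]
      exact (g4 _).le
    have h7 : ‖A.pt (y * (t * w⁻¹)) - A.pt y‖ * c ≤ C₁ * t₁ := by
      calc ‖A.pt (y * (t * w⁻¹)) - A.pt y‖ * c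
          ≤ ‖A.pt (y * (t * w⁻¹)) - A.pt y‖ *
            ‖1 - conj (A.pt y⁻¹) * A.act t (A.pt w⁻¹)‖ :=
            mul_le_mul_of_nonneg_left htc (norm_nonneg _)
        _ = A.kk y * ‖A.act t (A.pt w⁻¹)‖ := h5
        _ ≤ C₁ * t₁ * 1 := mul_le_mul hy2 h6 (norm_nonneg _) (by positivity)
        _ = C₁ * t₁ := mul_one _
    have h8 : ‖A.pt (y * (t * w⁻¹)) - A.pt y‖ ≤ C₁ * t₁ * (1 / c) := by
      rw [mul_one_div, le_div_iff₀ hc]
      exact h7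
    have h9 : ‖u - A.pt (y * (t * w⁻¹))‖ ≤ min s 1 := by
      have e : u - A.pt (y * (t * w⁻¹)) = (u - A.pt y) - (A.pt (y * (t * w⁻¹)) - A.pt y) := by
        ring
      calc ‖u - A.pt (y * (t * w⁻¹))‖
          ≤ ‖u - A.pt y‖ + ‖A.pt (y * (t * w⁻¹)) - A.pt y‖ := by
            rw [e]
            exact norm_sub_le _ _
        _ ≤ C₁ * t₁ + C₁ * t₁ * (1 / c) := add_le_add hy3 h8
        _ = C₁ * t₁ * (1 + 1 / c) := by ring
        _ ≤ min s 1 := ht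
    have h10' : ‖u - A.pt (y * (t * w⁻¹))‖ ≤ 1 := h9.trans (min_le_right _ _)
    have h11' : 1 ≤ ‖u + A.pt (y * (t * w⁻¹))‖ := by
      have e : 2 * u = (u + A.pt (y * (t * w⁻¹))) + (u - A.pt (y * (t * w⁻¹))) := by ring
      have e2 : ‖2 * u‖ = 2 := by
        rw [norm_mul, hu]
        norm_num
      have e3 := norm_add_le (u + A.pt (y * (t * w⁻¹))) (u - A.pt (y * (t * w⁻¹)))
      rw [← e, e2] at e3
      linarith
    show ‖u - A.pt (y * (t * w⁻¹))‖ / ‖u + A.pt (y * (t * w⁻¹))‖ ≤ s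
    rw [div_le_iff₀ (by linarith)]
    calc ‖u - A.pt (y * (t * w⁻¹))‖ ≤ s := h9.trans (min_le_left _ _)
      _ = s * 1 := (mul_one s).symm
      _ ≤ s * ‖u + A.pt (y * (t * w⁻¹))‖ := mul_le_mul_of_nonneg_left h11' hs.le

end Pool.Agent.SG
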